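import Pool.Agent.W181.RT.Props

/-! Reiner–Tudose: part T1. -/

set_option autoImplicit false

namespace Pool.Agent.W451.RT

open MvPolynomial Pool.Agent.W181.RT

variable {R : Type} [CommRing R]

lemma Lam_monomial (q : ℕ → R) (n : ℕ) (β : Fin n →₀ ℕ) :
    Lam q n (monomial β 1) = ∏ j, q (β j) := by
  unfold Lam
  have := (MvPolynomial.basisMonomials (Fin n) R).constr_basis R (fun α => ∏ j, q (α j)) β
  rw [coe_basisMonomials] at this
  exact this

lemma Lam_prod (q : ℕ → R) (n : ℕ) (e : Fin n → ℕ) :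
    Lam q n (∏ j, X j ^ e j) = ∏ j, q (e j) := by
  have h : (∏ j, (X j : MvPolynomial (Fin n) R) ^ e j) =
      monomial (Finsupp.equivFunOnFinite.symm e) 1 := by
    rw [monomial_eq, C_1, one_mul, Finsupp.prod_fintype _ _ (fun i => by simp)]
    rfl
  rw [h, Lam_monomial]
  rfl

lemma Lam_C_mul (q : ℕ → R) (n : ℕ) (c : R) (f : MvPolynomial (Fin n) R) :
    Lam q n (C c * f) = c * Lam q n f := by
  rw [← smul_eq_C_mul, map_smul, smul_eq_mul]

/-- products with the Vandermonde determinant -/
lemma Lam_prod_Vd (q : ℕ → R) (n : ℕ) (e : Fin n → ℕ) :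
    Lam q n ((∏ j, X j ^ e j) * Vd R n) = hk q n e := by
  unfold Vd hk
  rw [Matrix.det_apply', Matrix.det_apply', Finset.mul_sum, map_sum]
  refine Finset.sum_congr rfl (fun σ _ => ?_)
  have h1 : (∏ j, (X j : MvPolynomial (Fin n) R) ^ e j) *
      (((Equiv.Perm.sign σ : ℤ) : MvPolynomial (Fin n) R) *
        ∏ i, Matrix.of (fun (j c : Fin n) => (X j : MvPolynomial (Fin n) R) ^ (c : ℕ)) (σ i) i) =
      C ((Equiv.Perm.sign σ : ℤ) : R) *
        ∏ j, (X j : MvPolynomial (Fin n) R) ^ (e j + ((σ.symm j : Fin n) : ℕ)) := by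
    have h2 : ∏ j, (X j : MvPolynomial (Fin n) R) ^ (e j + ((σ.symm j : Fin n) : ℕ)) =
        (∏ j, (X j : MvPolynomial (Fin n) R) ^ e j) *
          ∏ i, (X (σ i) : MvPolynomial (Fin n) R) ^ (i : ℕ) := by
      rw [← Equiv.prod_comp σ (fun j => (X j : MvPolynomial (Fin n) R) ^
        (e j + ((σ.symm j : Fin n) : ℕ))), ← Equiv.prod_comp σ
          (fun j => (X j : MvPolynomial (Fin n) R) ^ e j), ← Finset.prod_mul_distrib]
      refine Finset.prod_congr rfl (fun i _ => ?_)
      rw [Equiv.symm_apply_apply, pow_add]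
    rw [h2]
    simp only [Matrix.of_apply]
    rw [map_intCast]
    ring
  rw [h1, Lam_C_mul, Lam_prod]
  congr 1
  rw [← Equiv.prod_comp σ]
  refine Finset.prod_congr rfl (fun i _ => ?_)
  rw [Equiv.symm_apply_apply]
  rfl

lemma Lam_mul_Vd_mem (q : ℕ → R) (n : ℕ) (f : MvPolynomial (Fin n) R) :
    Lam q n (f * Vd R n) ∈ PI q n := by
  induction f using MvPolynomial.induction_on' with
  | monomial β c =>
    have h : (monomial β c : MvPolynomial (Fin n) R) = C c * ∏ j, X j ^ β j := by
      rw [monomial_eq, Finsupp.prod_fintype _ _ (fun i => by simp)]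
    rw [h, mul_assoc, Lam_C_mul, Lam_prod_Vd]
    exact Ideal.mul_mem_left _ _ (Ideal.subset_span ⟨_, rfl⟩)
  | add p r hp hr =>
    rw [add_mul, map_add]
    exact Ideal.add_mem _ hp hr

/-- adding a variable -/
lemma Lam_rename (q : ℕ → R) (n s : ℕ) (f : MvPolynomial (Fin n) R) :
    Lam q (n + 1) (rename Fin.castSucc f * X (Fin.last n) ^ s) = q s * Lam q n f := by
  induction f using MvPolynomial.induction_on' with
  | monomial β c =>
    have h : (monomial β c : MvPolynomial (Fin n) R) = C c * ∏ j, X j ^ β j := by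
      rw [monomial_eq, Finsupp.prod_fintype _ _ (fun i => by simp)]
    have h2 : rename Fin.castSucc (monomial β c : MvPolynomial (Fin n) R) *
        X (Fin.last n) ^ s = C c * ∏ j : Fin (n + 1), X j ^ (Fin.snoc (α := fun _ => ℕ) β s j) := by
      rw [h, map_mul, map_prod, rename_C, Fin.prod_univ_castSucc]
      simp only [map_pow, rename_X, Fin.snoc_castSucc, Fin.snoc_last]
      ring
    rw [h2, Lam_C_mul, Lam_prod, Fin.prod_univ_castSucc, h, Lam_C_mul, Lam_prod]
    simp only [Fin.snoc_castSucc, Fin.snoc_last]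
    ring
  | add p r hp hr =>
    rw [map_add, add_mul, map_add, hp, hr, map_add, mul_add]

lemma prod_Ioi {A : Type} [CommMonoid A] (n : ℕ) (a : Fin n) (f : Fin (n + 1) → A) :
    ∏ b ∈ Finset.Ioi (Fin.castSucc a), f b =
      (∏ b ∈ Finset.Ioi a, f (Fin.castSucc b)) * f (Fin.last n) := by
  have h1 : ∀ (m : ℕ) (c : Fin m) (g : Fin m → A), ∏ b ∈ Finset.Ioi c, g b =
      ∏ b, if c < b then g b else 1 := by
    intro m c g
    rw [← Finset.filter_lt_eq_Ioi, Finset.prod_filter]
  rw [h1, h1, Fin.prod_univ_castSucc]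
  simp only [Fin.castSucc_lt_castSucc_iff, Fin.castSucc_lt_last, if_true]

/-- the recursion of the Vandermonde determinants -/
lemma Vd_succ (n : ℕ) : Vd R (n + 1) = rename Fin.castSucc (Vd R n) *
    ∏ j : Fin n, (X (Fin.last n) - X (Fin.castSucc j)) := by
  have h : ∀ m : ℕ, Vd R m = ∏ a : Fin m, ∏ b ∈ Finset.Ioi a,
      ((X b : MvPolynomial (Fin m) R) - X a) := by
    intro m
    unfold Vd
    exact Matrix.det_vandermonde (fun j : Fin m => (X j : MvPolynomial (Fin m) R))
  rw [h, h, map_prod, Fin.prod_univ_castSucc]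
  have h2 : Finset.Ioi (Fin.last n) = ∅ := by
    ext b
    simp [Fin.le_last]
  rw [h2, Finset.prod_empty, mul_one, ← Finset.prod_mul_distrib]
  refine Finset.prod_congr rfl (fun a _ => ?_)
  rw [prod_Ioi, map_prod]
  simp only [map_sub, rename_X]

/-- Vieta -/
lemma vieta (n : ℕ) : ∏ j : Fin n, ((X (Fin.last n) : MvPolynomial (Fin (n + 1)) R) -
    X (Fin.castSucc j)) = ∑ b ∈ Finset.range (n + 1), (-1) ^ b *
      (rename Fin.castSucc (esymm (Fin n) R b) * X (Fin.last n) ^ (n - b)) := by
  set s : Multiset (MvPolynomial (Fin (n + 1)) R) :=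
    (Finset.univ.val.map (fun j : Fin n => (X (Fin.castSucc j) : MvPolynomial (Fin (n + 1)) R)))
    with hs
  have h1 := Multiset.prod_X_sub_X_eq_sum_esymm s
  have hcard : Multiset.card s = n := by simp [hs]
  rw [hcard] at h1
  have h2 := congrArg (Polynomial.eval (X (Fin.last n) : MvPolynomial (Fin (n + 1)) R)) h1
  have h3 : Polynomial.eval (X (Fin.last n) : MvPolynomial (Fin (n + 1)) R)
      (s.map fun t => Polynomial.X - Polynomial.C t).prod =
      ∏ j : Fin n, ((X (Fin.last n) : MvPolynomial (Fin (n + 1)) R) - X (Fin.castSucc j)) := by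
    rw [hs, Multiset.map_map]
    have : ((Finset.univ : Finset (Fin n)).val.map ((fun t => Polynomial.X - Polynomial.C t) ∘
        fun j : Fin n => (X (Fin.castSucc j) : MvPolynomial (Fin (n + 1)) R))).prod =
        ∏ j : Fin n, (Polynomial.X - Polynomial.C (X (Fin.castSucc j) :
          MvPolynomial (Fin (n + 1)) R)) := rfl
    rw [this, Polynomial.eval_prod]
    simp
  rw [h3, Polynomial.eval_finsetSum] at h2
  rw [h2]
  refine Finset.sum_congr rfl (fun b _ => ?_)
  have h4 : rename Fin.castSucc (esymm (Fin n) R b) = s.esymm b := by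
    have := aeval_esymm_eq_multiset_esymm (σ := Fin n) (R := R)
      (S := MvPolynomial (Fin (n + 1)) R) b (fun j : Fin n => X (Fin.castSucc j))
    rw [← this, rename_eq_aeval]
    rfl
  rw [h4]
  simp

/-- the image of `rho` -/
lemma ey_rho (q : ℕ → R) (i a : ℕ) : ey R i (rho q i a) =
    ∑ b ∈ Finset.range (i + 1), C (q (i + a - b)) * ((-1) ^ b * esymm (Fin i) R b) := by
  have h1 : rho q i a = C (q (i + a)) + ∑ c : Fin i, (-1) ^ (c.val + 1) * X c *
      C (q (i + a - (c.val + 1))) := by
    unfold rho Dp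
    rw [add_mul, one_mul, map_add, PowerSeries.coeff_mk, Finset.sum_mul, map_sum]
    congr 1
    refine Finset.sum_congr rfl (fun c _ => ?_)
    rw [mul_assoc, PowerSeries.coeff_C_mul, PowerSeries.coeff_X_pow_mul', if_pos (by
      have := c.2
      omega), PowerSeries.coeff_mk]
  rw [h1, map_add, map_sum, Finset.sum_range_succ', add_comm, Finset.sum_range]
  congr 1
  · refine Finset.sum_congr rfl (fun c _ => ?_)
    rw [map_mul, map_mul, map_pow, map_neg, map_one]
    unfold ey
    rw [aeval_X, aeval_C, algebraMap_eq]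
    ring
  · unfold ey
    rw [aeval_C, algebraMap_eq]
    simp

theorem t_T1 : S_T1 := by
  intro R _ q i a g
  unfold Th
  have h0 : ey R i (g * rho q i a) = ey R i g * ey R i (rho q i a) := map_mul _ _ _
  rw [h0, ey_rho]
  set G := ey R i g * Vd R i * yd R i with hG
  have h1 : ey R i g * (∑ b ∈ Finset.range (i + 1), C (q (i + a - b)) *
      ((-1) ^ b * esymm (Fin i) R b)) * Vd R i * yd R i =
      ∑ b ∈ Finset.range (i + 1), C (q (i + a - b)) * ((-1) ^ b * esymm (Fin i) R b * G) := by
    rw [hG, Finset.mul_sum, Finset.sum_mul, Finset.sum_mul]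
    refine Finset.sum_congr rfl (fun b _ => by ring)
  rw [h1, map_sum]
  have h2 : ∑ b ∈ Finset.range (i + 1), Lam q i (C (q (i + a - b)) *
      ((-1) ^ b * esymm (Fin i) R b * G)) =
      Lam q (i + 1) ((rename Fin.castSucc (ey R i g * yd R i) * X (Fin.last i) ^ a) *
        Vd R (i + 1)) := by
    rw [Vd_succ, vieta]
    have h3 : rename Fin.castSucc (ey R i g * yd R i) * X (Fin.last i) ^ a *
        (rename Fin.castSucc (Vd R i) * ∑ b ∈ Finset.range (i + 1), (-1) ^ b *
          (rename Fin.castSucc (esymm (Fin i) R b) * X (Fin.last i) ^ (i - b))) =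
        ∑ b ∈ Finset.range (i + 1), rename Fin.castSucc ((-1) ^ b * esymm (Fin i) R b * G) *
          X (Fin.last i) ^ (i + a - b) := by
      rw [Finset.mul_sum, Finset.mul_sum]
      refine Finset.sum_congr rfl (fun b hb => ?_)
      rw [Finset.mem_range] at hb
      have h4 : i + a - b = a + (i - b) := by omega
      rw [h4, pow_add, hG]
      simp only [map_mul, map_pow, map_neg, map_one]
      ring
    rw [h3, map_sum]
    refine Finset.sum_congr rfl (fun b _ => ?_)
    rw [Lam_rename, Lam_C_mul]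
  rw [h2]
  exact Lam_mul_Vd_mem q (i + 1) _

end Pool.Agent.W451.RT
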